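import Pool.Agent.H.MP_7e7d68_co.A
import Pool.Agent.H.MP_7e7d68_co.B

namespace Pool.Agent.Results.MP_7e7d68_co.Order
open Finset Real

/-- `G a` is the neighbourhood in `B = Fin m` of the vertex `a` of `A = Fin (2 n)`. A split of `A`
into `n` pairs is given by a bijection `e`, the `s`-th pair being `e (s, false), e (s, true)`. -/
def Pairing {n m : ℕ} (G : Fin (2 * n) → Finset (Fin m)) : Prop :=
  ∀ e : Fin n × Bool ≃ Fin (2 * n), ∃ k : Fin n → Fin m, k.Injective ∧
    ∀ s, k s ∈ G (e (s, false)) ∧ k s ∈ G (e (s, true))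

/-- the least value of the maximum degree on the side `A`, over all `m ≥ n` and all graphs with
the pairing property -/
noncomputable def lam (n : ℕ) : ℕ :=
  sInf {d | ∃ m, n ≤ m ∧ ∃ G : Fin (2 * n) → Finset (Fin m), Pairing G ∧
    d = univ.sup fun a => (G a).card}

theorem result (n : ℕ) (hn : 2 ≤ n) :
    √(n * log n) / 32 ≤ lam n ∧ lam n ≤ 32 * √(n * log n) := by
  have n2 : (2 : ℝ) ≤ n := by exact_mod_cast hn
  have l1 : 1 / 2 ≤ log n := by linarith [log_two_gt_d9, log_le_log (by norm_num) n2]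
  have l2 : log n ≤ n := by linarith [log_le_sub_one_of_pos (show (0 : ℝ) < n by linarith)]
  constructor
  · obtain ⟨m, -, G, h, e⟩ : lam n ∈ _ := Nat.sInf_mem (s := {d | ∃ m, n ≤ m ∧
      ∃ G : Fin (2 * n) → Finset (Fin m), Pairing G ∧ d = univ.sup fun a => (G a).card})
      ⟨_, n, le_rfl, fun _ => univ, fun _ => ⟨id, fun _ _ h => h, by simp⟩, rfl⟩
    refine not_lt.mp fun k => ?_
    obtain ⟨y, y1, hy⟩ : ∃ y : ℝ, 1 < y ∧ y ^ 4 = n := ⟨n ^ ((4 : ℕ)⁻¹ : ℝ),
      one_lt_rpow (by linarith) (by norm_num), rpow_inv_natCast_pow (by linarith) (by norm_num)⟩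
    have l3 : log n = 4 * log y := by rw [← hy, log_pow]; norm_num
    have l4 := log_pos y1
    have q := sq_sqrt (show 0 ≤ n * log n by positivity)
    have q0 : 0 < √(n * log n) := sqrt_pos.mpr (by positivity)
    refine H.MP_7e7d68_co.lower G (d := √(n * log n) / 32) (by positivity) y1
      (fun a => le_trans (by rw [e]; exact_mod_cast le_sup (f := fun a => (G a).card) (mem_univ a))
        k.le)
      (fun T => ?_) (by simp; omega) ?_ (by simp only [Fintype.card_fin]; push_cast; nlinarith)
    · obtain ⟨C, c1, c2⟩ := H.MP_7e7d68_co.cover G (Fintype.equivFinOfCardEq (by simp [mul_comm]))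
        (fun e => (h e).imp fun k hk => ⟨hk.1, fun s β => by
          cases β; exacts [(hk.2 s).1, (hk.2 s).2]⟩) T
      exact ⟨C, c1, c2⟩
    · have h1 := pow_div_factorial_le_exp (2 * log y) (by positivity) 3
      rw [two_mul, exp_add, exp_log (by linarith)] at h1
      norm_num [Nat.factorial] at h1
      have h2 : (√(n * log n) ^ 3) ^ 2 ≤ (8 * y ^ 7) ^ 2 := by
        rw [← pow_mul, mul_comm 3, pow_mul, q, l3, ← hy]
        nlinarith [mul_le_mul_of_nonneg_left h1 (show 0 ≤ y ^ 12 by positivity),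
          (show 0 ≤ y ^ 12 * log y ^ 3 by positivity)]
      have h3 := (abs_le_of_sq_le_sq' h2 (by positivity)).2
      simp only [Fintype.card_fin]
      push_cast
      rw [← hy] at h3 ⊢
      nlinarith
  · obtain ⟨s, s1, hs⟩ : ∃ s : ℝ, 1 ≤ s ∧ s ^ 2 * log n = n := ⟨√(n / log n),
      one_le_sqrt.mpr ((one_le_div (by linarith)).mpr l2), by
        rw [sq_sqrt (by positivity)]; field_simp⟩
    have q : √(n * log n) = s * log n := by
      rw [sqrt_eq_iff_mul_self_eq (by positivity) (by positivity)]; nlinarith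
    have k1 := Nat.le_ceil s
    have k2 := Nat.ceil_lt_add_one (show 0 ≤ s by linarith)
    have d1 := Nat.le_ceil (30 * (s * log n))
    have d2 := Nat.ceil_lt_add_one (show 0 ≤ 30 * (s * log n) by positivity)
    have sl : 1 / 2 ≤ s * log n := by nlinarith
    set k := ⌈s⌉₊
    set d := ⌈30 * (s * log n)⌉₊
    have k0 : (0 : ℝ) < k := by linarith
    have d3 : (d : ℝ) * k ≤ 64 * n := by
      have := mul_le_mul (show (d : ℝ) ≤ 32 * (s * log n) by linarith)
        (show (k : ℝ) ≤ 2 * s by linarith) k0.le (by positivity)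
      nlinarith
    have d4 : 30 * (n : ℝ) ≤ d * k := by
      have := mul_le_mul d1 k1 (by linarith) (by positivity)
      nlinarith
    obtain ⟨G, g1, g2⟩ := H.MP_7e7d68_co.upper (n := n) (d := d) (k := k) (by exact_mod_cast k0)
      (by exact_mod_cast (show (0 : ℝ) < d by linarith)) (by omega) (by
        have h1 : exp (-((d * k - n : ℝ) / k ^ 2)) ≤ exp (-((14 : ℕ) * log n)) := by
          rw [exp_le_exp, neg_le_neg_iff, le_div_iff₀ (by positivity)]
          have a1 : (n : ℝ) ≤ log n * k ^ 2 := by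
            nlinarith [mul_le_mul_of_nonneg_left (pow_le_pow_left₀ (by linarith) k1 2)
              (show 0 ≤ log n by linarith)]
          have a2 : 15 * log n * k ≤ d := by nlinarith
          push_cast
          nlinarith
        rw [exp_neg ((14 : ℕ) * log n), exp_nat_mul, exp_log (by linarith)] at h1
        have h2 := pow_le_pow_left₀ (by norm_num) n2 10
        have h3 : (0 : ℝ) < n ^ 14 := by positivity
        refine le_trans (b := (2 * n : ℝ) * ((2 * n : ℝ) ^ 2 * (64 * n) * ((n : ℝ) ^ 14)⁻¹)) (by gcongr) ?_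
        rw [← mul_assoc, mul_inv_le_iff₀ h3]
        nlinarith [pow_pos (show (0 : ℝ) < n by linarith) 4])
    have := Nat.sInf_le (s := {d | ∃ m, n ≤ m ∧ ∃ G : Fin (2 * n) → Finset (Fin m), Pairing G ∧
      d = univ.sup fun a => (G a).card}) ⟨d * k, by
        exact_mod_cast (show (n : ℝ) ≤ d * k by linarith),
      fun a => (G a).map finProdFinEquiv.toEmbedding, fun e => by
        obtain ⟨κ, h1, h2⟩ := g2 e
        exact ⟨_, finProdFinEquiv.injective.comp h1, fun s => by simp [h2]⟩, rfl⟩
    have : (lam n : ℝ) ≤ d := by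
      exact_mod_cast this.trans (Finset.sup_le fun a _ => by simpa using g1 a)
    linarith

end Pool.Agent.Results.MP_7e7d68_co.Order
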